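import Pool.Agent.Helper71.UN.StD

/-!
# Project UN, part (D), module PRP: values of iterated products of paths

`theorem hPRP (hLWA : StLWA) : StPRP`.
-/

set_option autoImplicit false

open Set Filter Topology Matrix
open scoped ContDiff ComplexConjugate

noncomputable section

namespace Pool.Agent.Helper58.UN

open Pool.Agent.Helper71.UN

/-- The parameter is in `[0, 1]`. -/
theorem paR_mem (σ : ℕ → ℝ) (hσ : ∀ j, 0 ≤ σ j ∧ σ j ≤ 1) :
    ∀ (m i : ℕ), 0 ≤ paR σ i m ∧ paR σ i m ≤ 1
  | 0, i => by simp [paR]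
  | 1, i => by simpa [paR] using hσ i
  | (m + 2), i => by
      have h := paR_mem σ hσ (m + 1) (i + 1)
      have h' := hσ i
      constructor
      · simp only [paR]; linarith [h.1, h'.1]
      · simp only [paR]; linarith [h.2, h'.2]

/-- All parameters `1`. -/
theorem paR_one (σ : ℕ → ℝ) :
    ∀ (m i : ℕ), 0 < m → (∀ j, i ≤ j → j < i + m → σ j = 1) → paR σ i m = 1
  | 0, i, h0, _ => absurd h0 (lt_irrefl 0)
  | 1, i, _, h => by simpa [paR] using h i (le_refl i) (by omega)
  | (m + 2), i, _, h => by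
      have h1 := paR_one σ (m + 1) (i + 1) (by omega) (fun j hj hj' => h j (by omega) (by omega))
      have h2 := h i (le_refl i) (by omega)
      simp only [paR]; rw [h1, h2]; norm_num

/-- All parameters `0`. -/
theorem paR_zero (σ : ℕ → ℝ) :
    ∀ (m i : ℕ), (∀ j, i ≤ j → j < i + m → σ j = 0) → paR σ i m = 0
  | 0, i, _ => by simp [paR]
  | 1, i, h => by simpa [paR] using h i (le_refl i) (by omega)
  | (m + 2), i, h => by
      have h1 := paR_zero σ (m + 1) (i + 1) (fun j hj hj' => h j (by omega) (by omega))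
      have h2 := h i (le_refl i) (by omega)
      simp only [paR]; rw [h1, h2]; norm_num

/-- The product is a path. -/
theorem prP_isP (hLWA : StLWA) {n : ℕ} (al : Fin 4 → Fin n → Bool) (g : ℕ → ℝ → Fm n)
    (x : ℕ → Fm n) :
    ∀ (m i : ℕ), 0 < m → (∀ j, i ≤ j → j < i + m → IsP al (x j) (x (j + 1)) (g j)) →
      IsP al (x i) (x (i + m)) (prP g x i m)
  | 0, i, h0, _ => absurd h0 (lt_irrefl 0)
  | 1, i, _, h => by simpa [prP] using h i (le_refl i) (by omega)
  | (m + 2), i, _, h => by
      have h1 := prP_isP hLWA al g x (m + 1) (i + 1) (by omega)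
        (fun j hj hj' => h j (by omega) (by omega))
      have h2 := h i (le_refl i) (by omega)
      have e : i + 1 + (m + 1) = i + (m + 2) := by omega
      rw [e] at h1
      simp only [prP]
      exact ((hLWA n al (x i) (x (i + 1)) (x (i + (m + 2))) (g i) (g i) (g i)
        (prP g x (i + 1) (m + 1)) (prP g x (i + 1) (m + 1))).2.2.2.2.1 h2 h1).1

/-- The value of the product at the position `j`. -/
theorem prP_val (hLWA : StLWA) {n : ℕ} (al : Fin 4 → Fin n → Bool) (g : ℕ → ℝ → Fm n)
    (x : ℕ → Fm n) (σ : ℕ → ℝ) (hσ : ∀ j, 0 ≤ σ j ∧ σ j ≤ 1) :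
    ∀ (m i : ℕ), 0 < m → (∀ j, i ≤ j → j < i + m → IsP al (x j) (x (j + 1)) (g j)) →
      ∀ j, i ≤ j → j < i + m → (∀ j', i ≤ j' → j' < j → σ j' = 1) →
        (∀ j', j < j' → j' < i + m → σ j' = 0) → prP g x i m (paR σ i m) = g j (σ j)
  | 0, i, h0, _, _, _, _, _, _ => absurd h0 (lt_irrefl 0)
  | 1, i, _, h, j, hj, hj', h1, h2 => by
      obtain rfl : j = i := by omega
      simp [prP, paR]
  | (m + 2), i, _, h, j, hj, hj', h1, h2 => by
      have hP := prP_isP hLWA al g x (m + 1) (i + 1) (by omega)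
        (fun j hj hj' => h j (by omega) (by omega))
      have hG := h i (le_refl i) (by omega)
      have e : i + 1 + (m + 1) = i + (m + 2) := by omega
      rw [e] at hP
      have L := ((hLWA n al (x i) (x (i + 1)) (x (i + (m + 2))) (g i) (g i) (g i)
        (prP g x (i + 1) (m + 1)) (prP g x (i + 1) (m + 1))).2.2.2.2.1 hG hP).2
      have hm := paR_mem σ hσ (m + 1) (i + 1)
      simp only [prP]
      rcases Nat.eq_or_lt_of_le hj with hij | hij
      · subst hij
        have hz : paR σ (i + 1) (m + 1) = 0 :=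
          paR_zero σ (m + 1) (i + 1) (fun j hj hj' => h2 j (by omega) (by omega))
        have hs : paR σ i (m + 2) = σ i / 2 := by simp only [paR]; rw [hz]; ring
        rw [hs, L.1 (σ i / 2) (by linarith [(hσ i).2])]
        congr 1
        ring
      · have hi1 : σ i = 1 := h1 i (le_refl i) hij
        have hs : paR σ i (m + 2) = 1 / 2 + paR σ (i + 1) (m + 1) / 2 := by
          simp only [paR]; rw [hi1]
        rw [hs, L.2 (1 / 2 + paR σ (i + 1) (m + 1) / 2) (by linarith [hm.1])]
        have ev : 2 * (1 / 2 + paR σ (i + 1) (m + 1) / 2) - 1 = paR σ (i + 1) (m + 1) := by ring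
        rw [ev]
        exact prP_val hLWA al g x σ hσ (m + 1) (i + 1) (by omega)
          (fun j hj hj' => h j (by omega) (by omega)) j (by omega) (by omega)
          (fun j' hj hj' => h1 j' (by omega) (by omega))
          (fun j' hj hj' => h2 j' (by omega) (by omega))

/-- **PRP** (values of products). -/
theorem hPRP (hLWA : StLWA) : StPRP := by
  intro n al g x i m hm hP
  refine ⟨prP_isP hLWA al g x m i hm hP, fun σ hσ => ⟨?_, ?_, ?_⟩⟩
  · intro j hj hj' h1 h2
    exact prP_val hLWA al g x σ hσ m i hm hP j hj hj' h1 h2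
  · exact paR_one σ m i hm
  · exact paR_zero σ m i

end Pool.Agent.Helper58.UN
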